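import Mathlib
import Pool.Agent.Helper18.SG.Goals2
import Pool.Agent.Helper58.SG.F

/-! Packet GI of the project SG. -/

set_option autoImplicit false

namespace Pool.Agent.Helper18.SGI

open Finset Pool.Agent.Lead.Sh Pool.Agent.Helper43.Ah Pool.Agent.Helper43.Gm
open Helper18.Cusp (Red rr YB kap GoodFor Concl)
open Helper18.Np (fm)

theorem goalGI : Pool.Agent.Helper18.SG.GoalGI := by
  intro M D K s mm hM hKs hmm H
  constructor
  · intro hc
    exact H s mm hKs (fun _ _ => rfl) hmm hc
  · intro hT
    obtain ⟨t, ht⟩ := Nat.exists_eq_add_of_le hT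
    set B := (K ∪ s).sup id + 1 with hB
    have hsB : ∀ k ∈ K ∪ s, k < B := by
      intro k hk
      have : k ≤ (K ∪ s).sup id := le_sup (f := id) hk
      omega
    set mp : ℕ → ℕ := fun k => if k < B then mm k else 1 with hmp
    set sp := s ∪ Ico B (B + t) with hsp
    have hdj : Disjoint (K ∪ s) (Ico B (B + t)) := by
      rw [disjoint_left]
      intro k hk hk2
      rw [mem_Ico] at hk2
      have := hsB k hk
      omega
    have hmps : ∀ k ∈ K ∪ s, mm k = mp k := by
      intro k hk
      simp only [hmp]
      rw [if_pos (hsB k hk)]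
    have hun : K ∪ sp = (K ∪ s) ∪ Ico B (B + t) := by
      rw [hsp, union_assoc]
    have hsump : ∑ k ∈ K ∪ sp, (mp k + 1).choose 2 = D.card := by
      rw [hun, sum_union hdj, ht]
      congr 1
      · apply sum_congr rfl
        intro k hk
        rw [hmps k hk]
      · rw [sum_congr rfl (g := fun _ => 1)]
        · rw [sum_const, smul_eq_mul, Nat.card_Ico, Nat.add_sub_cancel_left, mul_one]
        · intro k hk
          rw [mem_Ico] at hk
          simp only [hmp]
          rw [if_neg (by omega)]
          rfl
    have hdK : Disjoint K sp := by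
      rw [hsp, disjoint_union_right]
      exact ⟨hKs, (disjoint_union_left.1 hdj).1⟩
    have h5 := H sp mp hdK (fun k hk => (hmps k (mem_union_left _ hk)).symm) (by
      intro k hk
      rcases mem_union.1 hk with hk | hk
      · rw [← hmps k (mem_union_right _ hk)]; exact hmm k hk
      · rw [mem_Ico] at hk
        simp only [hmp]
        rw [if_neg (by omega)]; exact hM) (le_of_eq hsump.symm)
    obtain ⟨P, hP'⟩ := h5
    have hInd : Ind D (rows mp (K ∪ sp)) := ⟨P, hP'.ind (by
      rw [card_rows, hsump])⟩
    refine hInd.mono subset_rfl ?_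
    rw [rows_congr hmps]
    rw [hun]
    exact rows_mono subset_union_left

end Pool.Agent.Helper18.SGI
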